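import Mathlib

/-!
# Equal order and equal degree pattern do not force equal prime graphs

We exhibit two (solvable) groups of order `546 = 2 * 3 * 7 * 13`,
`G = D₁₄ × (C₁₃ ⋊ C₃)` and `M = (C₇ ⋊ C₃) × D₂₆`, with the same degree pattern `(2, 2, 2, 2)` and
with different prime graphs: in `G` the non-adjacent pairs are `{2, 7}`, `{3, 13}`, while in `M`
they are `{3, 7}`, `{2, 13}`.
-/

namespace Pool.Agent.Results.MP_21cc58_al.DegreePatternCounterexample

/-- The prime graph (Gruenberg-Kegel graph) of a group `G`, as a graph on `ℕ` all of whose edges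
join vertices in the set `π(G)` of prime divisors of `|G|`: two primes `p ≠ q` dividing `|G|` are
adjacent iff `G` has an element of order `p * q`. -/
def primeGraph (G : Type) [Group G] : SimpleGraph ℕ where
  Adj p q := p ≠ q ∧ p ∈ (Nat.card G).primeFactors ∧ q ∈ (Nat.card G).primeFactors ∧
    ∃ g : G, orderOf g = p * q
  symm := ⟨by
    rintro p q ⟨h, hp, hq, g, hg⟩
    exact ⟨h.symm, hq, hp, g, by rw [hg, mul_comm]⟩⟩
  loopless := ⟨fun p h => h.1 rfl⟩

/-- The degree of a vertex in the prime graph of `G`. -/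
noncomputable def gkDegree (G : Type) [Group G] (p : ℕ) : ℕ :=
  ((primeGraph G).neighborSet p).ncard

/-- The degree pattern of `G`: the list of the degrees in the prime graph of the primes dividing
`|G|`, the primes being listed in increasing order. -/
noncomputable def degreePattern (G : Type) [Group G] : List ℕ :=
  ((Nat.card G).primeFactors.sort (· ≤ ·)).map (gkDegree G)

/-! ### The affine groups `x ↦ u x + b` -/

/-- The group of affine maps `x ↦ u x + b` of `ZMod m`, with `u` in a subgroup `U` of units. -/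
@[ext] structure Aff (m : ℕ) (U : Subgroup (ZMod m)ˣ) where
  b : ZMod m
  u : U

namespace Aff

variable {m : ℕ} {U : Subgroup (ZMod m)ˣ}

instance : Mul (Aff m U) := ⟨fun x y => ⟨x.b + ((x.u : (ZMod m)ˣ) : ZMod m) * y.b, x.u * y.u⟩⟩
instance : One (Aff m U) := ⟨⟨0, 1⟩⟩
instance : Inv (Aff m U) :=
  ⟨fun x => ⟨-(((x.u⁻¹ : U) : (ZMod m)ˣ) : ZMod m) * x.b, x.u⁻¹⟩⟩

@[simp] lemma mul_b (x y : Aff m U) : (x * y).b = x.b + ((x.u : (ZMod m)ˣ) : ZMod m) * y.b := rfl
@[simp] lemma mul_u (x y : Aff m U) : (x * y).u = x.u * y.u := rfl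
@[simp] lemma one_b : (1 : Aff m U).b = 0 := rfl
@[simp] lemma one_u : (1 : Aff m U).u = 1 := rfl
@[simp] lemma inv_b (x : Aff m U) :
    (x⁻¹).b = -(((x.u⁻¹ : U) : (ZMod m)ˣ) : ZMod m) * x.b := rfl
@[simp] lemma inv_u (x : Aff m U) : (x⁻¹).u = x.u⁻¹ := rfl

instance : Group (Aff m U) :=
  Group.ofLeftAxioms
    (by
      intro x y z
      ext
      · simp [mul_add, mul_assoc, add_assoc]
      · simp [mul_assoc])
    (by intro x; ext <;> simp)
    (by intro x; ext <;> simp)

/-- The underlying set of `Aff m U`. -/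
def equiv (m : ℕ) (U : Subgroup (ZMod m)ˣ) : Aff m U ≃ ZMod m × U where
  toFun x := (x.b, x.u)
  invFun x := ⟨x.1, x.2⟩
  left_inv _ := rfl
  right_inv _ := rfl

lemma card_eq : Nat.card (Aff m U) = m * Nat.card U := by
  rw [Nat.card_congr (equiv m U), Nat.card_prod, Nat.card_zmod]

lemma pow_u (x : Aff m U) (n : ℕ) : (x ^ n).u = x.u ^ n := by
  induction n with
  | zero => simp
  | succ n ih => rw [pow_succ, mul_u, ih, pow_succ]

lemma pow_b (x : Aff m U) (n : ℕ) :
    (x ^ n).b = (∑ i ∈ Finset.range n, ((x.u : (ZMod m)ˣ) : ZMod m) ^ i) * x.b := by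
  induction n with
  | zero => simp
  | succ n ih =>
    rw [pow_succ, mul_b, ih, pow_u, Finset.sum_range_succ, add_mul]
    simp

/-- Every element of `Aff p U` (`p` prime) is killed by `p` or by `|U|`. -/
lemma pow_eq_one_or (hm : m.Prime) (k : ℕ) (hU : ∀ u : U, u ^ k = 1) (x : Aff m U) :
    x ^ m = 1 ∨ x ^ k = 1 := by
  have : Fact m.Prime := ⟨hm⟩
  by_cases h : x.u = 1
  · left
    ext
    · rw [pow_b]; simp [h]
    · rw [pow_u]; simp [h]
  · right
    have hk : ((x.u : (ZMod m)ˣ) : ZMod m) ^ k = 1 := by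
      have := hU x.u
      have h2 : ((x.u : (ZMod m)ˣ)) ^ k = 1 := by
        have := congrArg (fun y : U => (y : (ZMod m)ˣ)) this
        simpa using this
      have h3 := congrArg (fun y : (ZMod m)ˣ => (y : ZMod m)) h2
      simpa using h3
    have hne : ((x.u : (ZMod m)ˣ) : ZMod m) - 1 ≠ 0 := by
      intro h0
      apply h
      apply Subtype.ext
      apply Units.ext
      simpa [sub_eq_zero] using h0
    have hsum : (∑ i ∈ Finset.range k, ((x.u : (ZMod m)ˣ) : ZMod m) ^ i) = 0 := by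
      have := geom_sum_mul ((x.u : (ZMod m)ˣ) : ZMod m) k
      rw [hk, sub_self] at this
      exact (mul_eq_zero.mp this).resolve_right hne
    ext
    · rw [pow_b, hsum]; simp
    · rw [pow_u, hU]; simp

end Aff

/-- `C_p ⋊ C_k`: the affine maps `x ↦ u x + b` of `ZMod p` with `u ^ k = 1`. -/
abbrev Frob (p k : ℕ) : Type := Aff p (powMonoidHom k : (ZMod p)ˣ →* (ZMod p)ˣ).ker

lemma frob_pow (p k : ℕ) (hp : p.Prime) (x : Frob p k) : x ^ p = 1 ∨ x ^ k = 1 := by
  apply Aff.pow_eq_one_or hp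
  rintro ⟨u, hu⟩
  apply Subtype.ext
  simpa [MonoidHom.mem_ker] using hu

/-! ### The prime graph of a product of two such groups -/

section product

variable {X Y : Type} [Group X] [Group Y] [Finite X] [Finite Y]

lemma adj_of (a b c d : ℕ) (ha : a.Prime) (hb : b.Prime) (hc : c.Prime) (hd : d.Prime)
    (hac : a ≠ c) (had : a ≠ d) (hbc : b ≠ c) (hbd : b ≠ d)
    (hX : Nat.card X = a * b) (hY : Nat.card Y = c * d) (p q : ℕ)
    (hp : p = a ∨ p = b) (hq : q = c ∨ q = d) :
    (primeGraph (X × Y)).Adj p q := by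
  have hpp : p.Prime := by rcases hp with rfl | rfl <;> assumption
  have hqp : q.Prime := by rcases hq with rfl | rfl <;> assumption
  have hpq : p ≠ q := by
    rcases hp with rfl | rfl <;> rcases hq with rfl | rfl <;> assumption
  have hpX : p ∣ Nat.card X := by
    rw [hX]; rcases hp with rfl | rfl
    · exact dvd_mul_right _ _
    · exact dvd_mul_left _ _
  have hqY : q ∣ Nat.card Y := by
    rw [hY]; rcases hq with rfl | rfl
    · exact dvd_mul_right _ _
    · exact dvd_mul_left _ _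
  have : Fact p.Prime := ⟨hpp⟩
  have : Fact q.Prime := ⟨hqp⟩
  obtain ⟨x, hx⟩ := exists_prime_orderOf_dvd_card' (G := X) p hpX
  obtain ⟨y, hy⟩ := exists_prime_orderOf_dvd_card' (G := Y) q hqY
  have hne : Nat.card (X × Y) ≠ 0 := Nat.card_ne_zero.mpr ⟨inferInstance, inferInstance⟩
  refine ⟨hpq, ?_, ?_, (x, y), ?_⟩
  · exact Nat.mem_primeFactors.mpr ⟨hpp, by rw [Nat.card_prod]; exact hpX.mul_right _, hne⟩
  · exact Nat.mem_primeFactors.mpr ⟨hqp, by rw [Nat.card_prod]; exact hqY.mul_left _, hne⟩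
  · rw [Prod.orderOf_mk, hx, hy]
    exact Nat.Coprime.lcm_eq_mul ((Nat.coprime_primes hpp hqp).mpr hpq)

omit [Finite X] [Finite Y] in
/-- No element of `X × Y` has order `a * b`, when every element of `X` has order dividing `a` or
dividing `b` and every element of `Y` has order coprime to `a * b`. -/
lemma not_order (a b c d : ℕ) (ha : a.Prime) (hb : b.Prime) (hc : c.Prime) (hd : d.Prime)
    (hac : a ≠ c) (had : a ≠ d) (hbc : b ≠ c) (hbd : b ≠ d)
    (hX : ∀ x : X, x ^ a = 1 ∨ x ^ b = 1) (hY : ∀ y : Y, y ^ c = 1 ∨ y ^ d = 1)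
    (g : X × Y) : orderOf g ≠ a * b := by
  obtain ⟨x, y⟩ := g
  intro h
  have hyd : orderOf y ∣ a * b := by
    rw [← h, Prod.orderOf_mk]; exact Nat.dvd_lcm_right _ _
  have hy1 : orderOf y = 1 := by
    rcases hY y with h1 | h1
    · have h2 := orderOf_dvd_of_pow_eq_one h1
      rcases (Nat.dvd_prime hc).mp h2 with h3 | h3
      · exact h3
      · exfalso
        rw [h3] at hyd
        rcases (Nat.Prime.dvd_mul hc).mp hyd with h4 | h4
        · exact hac ((Nat.prime_dvd_prime_iff_eq hc ha).mp h4).symm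
        · exact hbc ((Nat.prime_dvd_prime_iff_eq hc hb).mp h4).symm
    · have h2 := orderOf_dvd_of_pow_eq_one h1
      rcases (Nat.dvd_prime hd).mp h2 with h3 | h3
      · exact h3
      · exfalso
        rw [h3] at hyd
        rcases (Nat.Prime.dvd_mul hd).mp hyd with h4 | h4
        · exact had ((Nat.prime_dvd_prime_iff_eq hd ha).mp h4).symm
        · exact hbd ((Nat.prime_dvd_prime_iff_eq hd hb).mp h4).symm
  rw [Prod.orderOf_mk, hy1, Nat.lcm_one_right] at h
  rcases hX x with h1 | h1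
  · have h2 := orderOf_dvd_of_pow_eq_one h1
    rw [h] at h2
    have h3 := Nat.le_of_dvd ha.pos h2
    nlinarith [ha.two_le, hb.two_le]
  · have h2 := orderOf_dvd_of_pow_eq_one h1
    rw [h] at h2
    have h3 := Nat.le_of_dvd hb.pos h2
    nlinarith [ha.two_le, hb.two_le]

/-- The prime graph of the product of two `Frobenius-like` groups. -/
lemma adj_iff (a b c d : ℕ) (ha : a.Prime) (hb : b.Prime) (hc : c.Prime) (hd : d.Prime)
    (hac : a ≠ c) (had : a ≠ d) (hbc : b ≠ c) (hbd : b ≠ d)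
    (hcX : Nat.card X = a * b) (hcY : Nat.card Y = c * d)
    (hX : ∀ x : X, x ^ a = 1 ∨ x ^ b = 1) (hY : ∀ y : Y, y ^ c = 1 ∨ y ^ d = 1) (p q : ℕ) :
    (primeGraph (X × Y)).Adj p q ↔
      ((p = a ∨ p = b) ∧ (q = c ∨ q = d)) ∨ ((p = c ∨ p = d) ∧ (q = a ∨ q = b)) := by
  constructor
  · rintro ⟨hpq, hp, hq, g, hg⟩
    have mem : ∀ r ∈ (Nat.card (X × Y)).primeFactors, (r = a ∨ r = b) ∨ (r = c ∨ r = d) := by
      intro r hr
      have hrp := Nat.prime_of_mem_primeFactors hr
      have hrd := Nat.dvd_of_mem_primeFactors hr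
      rw [Nat.card_prod, hcX, hcY] at hrd
      rcases (Nat.Prime.dvd_mul hrp).mp hrd with h | h
      · left
        rcases (Nat.Prime.dvd_mul hrp).mp h with h | h
        · left; exact (Nat.prime_dvd_prime_iff_eq hrp ha).mp h
        · right; exact (Nat.prime_dvd_prime_iff_eq hrp hb).mp h
      · right
        rcases (Nat.Prime.dvd_mul hrp).mp h with h | h
        · left; exact (Nat.prime_dvd_prime_iff_eq hrp hc).mp h
        · right; exact (Nat.prime_dvd_prime_iff_eq hrp hd).mp h
    have key1 : ¬ ((p = a ∨ p = b) ∧ (q = a ∨ q = b)) := by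
      rintro ⟨h1, h2⟩
      have : orderOf g = a * b := by
        rw [hg]
        rcases h1 with rfl | rfl <;> rcases h2 with rfl | rfl
        · exact absurd rfl hpq
        · rfl
        · rw [mul_comm]
        · exact absurd rfl hpq
      exact not_order a b c d ha hb hc hd hac had hbc hbd hX hY g this
    have key2 : ¬ ((p = c ∨ p = d) ∧ (q = c ∨ q = d)) := by
      rintro ⟨h1, h2⟩
      have hg' : orderOf (g.2, g.1) = orderOf g := by
        obtain ⟨x, y⟩ := g
        rw [Prod.orderOf_mk, Prod.orderOf_mk, Nat.lcm_comm]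
      have : orderOf ((g.2, g.1) : Y × X) = c * d := by
        rw [hg', hg]
        rcases h1 with rfl | rfl <;> rcases h2 with rfl | rfl
        · exact absurd rfl hpq
        · rfl
        · rw [mul_comm]
        · exact absurd rfl hpq
      exact not_order c d a b hc hd ha hb hac.symm hbc.symm had.symm hbd.symm hY hX _ this
    rcases mem p hp with h1 | h1 <;> rcases mem q hq with h2 | h2
    · exact absurd ⟨h1, h2⟩ key1
    · exact Or.inl ⟨h1, h2⟩
    · exact Or.inr ⟨h1, h2⟩
    · exact absurd ⟨h1, h2⟩ key2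
  · rintro (⟨h1, h2⟩ | ⟨h1, h2⟩)
    · exact adj_of a b c d ha hb hc hd hac had hbc hbd hcX hcY p q h1 h2
    · exact (adj_of a b c d ha hb hc hd hac had hbc hbd hcX hcY q p h2 h1).symm

lemma gkDegree_eq_two (a b c d : ℕ) (ha : a.Prime) (hb : b.Prime) (hc : c.Prime) (hd : d.Prime)
    (hac : a ≠ c) (had : a ≠ d) (hbc : b ≠ c) (hbd : b ≠ d) (hab : a ≠ b) (hcd : c ≠ d)
    (hcX : Nat.card X = a * b) (hcY : Nat.card Y = c * d)
    (hX : ∀ x : X, x ^ a = 1 ∨ x ^ b = 1) (hY : ∀ y : Y, y ^ c = 1 ∨ y ^ d = 1) (p : ℕ)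
    (hp : p = a ∨ p = b ∨ p = c ∨ p = d) : gkDegree (X × Y) p = 2 := by
  have H := adj_iff a b c d ha hb hc hd hac had hbc hbd hcX hcY hX hY
  unfold gkDegree
  rw [Set.ncard_eq_two]
  rcases hp with h | h | h | h
  · refine ⟨c, d, hcd, ?_⟩
    ext q
    simp only [SimpleGraph.mem_neighborSet, H, Set.mem_insert_iff, Set.mem_singleton_iff]
    constructor
    · rintro (⟨-, h2⟩ | ⟨h1, -⟩)
      · exact h2
      · exfalso; rcases h1 with h1 | h1 <;> omega
    · intro h2; exact Or.inl ⟨Or.inl h, h2⟩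
  · refine ⟨c, d, hcd, ?_⟩
    ext q
    simp only [SimpleGraph.mem_neighborSet, H, Set.mem_insert_iff, Set.mem_singleton_iff]
    constructor
    · rintro (⟨-, h2⟩ | ⟨h1, -⟩)
      · exact h2
      · exfalso; rcases h1 with h1 | h1 <;> omega
    · intro h2; exact Or.inl ⟨Or.inr h, h2⟩
  · refine ⟨a, b, hab, ?_⟩
    ext q
    simp only [SimpleGraph.mem_neighborSet, H, Set.mem_insert_iff, Set.mem_singleton_iff]
    constructor
    · rintro (⟨h1, -⟩ | ⟨-, h2⟩)
      · exfalso; rcases h1 with h1 | h1 <;> omega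
      · exact h2
    · intro h2; exact Or.inr ⟨Or.inl h, h2⟩
  · refine ⟨a, b, hab, ?_⟩
    ext q
    simp only [SimpleGraph.mem_neighborSet, H, Set.mem_insert_iff, Set.mem_singleton_iff]
    constructor
    · rintro (⟨h1, -⟩ | ⟨-, h2⟩)
      · exfalso; rcases h1 with h1 | h1 <;> omega
      · exact h2
    · intro h2; exact Or.inr ⟨Or.inr h, h2⟩

end product

/-! ### The four small groups -/

instance (p k : ℕ) [NeZero p] : Finite (Frob p k) :=
  Finite.of_equiv _ (Aff.equiv p _).symm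

lemma card_ker_7_2 : Nat.card (powMonoidHom 2 : (ZMod 7)ˣ →* (ZMod 7)ˣ).ker = 2 := by
  rw [Nat.card_eq_fintype_card]; decide

lemma card_ker_7_3 : Nat.card (powMonoidHom 3 : (ZMod 7)ˣ →* (ZMod 7)ˣ).ker = 3 := by
  rw [Nat.card_eq_fintype_card]; decide

lemma card_ker_13_2 : Nat.card (powMonoidHom 2 : (ZMod 13)ˣ →* (ZMod 13)ˣ).ker = 2 := by
  rw [Nat.card_eq_fintype_card]; decide

lemma card_ker_13_3 : Nat.card (powMonoidHom 3 : (ZMod 13)ˣ →* (ZMod 13)ˣ).ker = 3 := by
  rw [Nat.card_eq_fintype_card]; decide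

lemma card_7_2 : Nat.card (Frob 7 2) = 7 * 2 := by rw [Aff.card_eq, card_ker_7_2]
lemma card_7_3 : Nat.card (Frob 7 3) = 7 * 3 := by rw [Aff.card_eq, card_ker_7_3]
lemma card_13_2 : Nat.card (Frob 13 2) = 13 * 2 := by rw [Aff.card_eq, card_ker_13_2]
lemma card_13_3 : Nat.card (Frob 13 3) = 13 * 3 := by rw [Aff.card_eq, card_ker_13_3]

/-- There are finite groups `G`, `M` (of order `546`) with `|G| = |M|` and `D(G) = D(M)` but with
`GK(G) ≠ GK(M)`. -/
theorem result : ∃ (G M : Type) (_ : Group G) (_ : Group M), Finite G ∧ Finite M ∧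
    Nat.card G = Nat.card M ∧ degreePattern G = degreePattern M ∧
    primeGraph G ≠ primeGraph M := by
  have p2 : Nat.Prime 2 := by norm_num
  have p3 : Nat.Prime 3 := by norm_num
  have p7 : Nat.Prime 7 := by norm_num
  have p13 : Nat.Prime 13 := by norm_num
  have cG : Nat.card (Frob 7 2 × Frob 13 3) = 546 := by
    rw [Nat.card_prod, card_7_2, card_13_3]
  have cM : Nat.card (Frob 7 3 × Frob 13 2) = 546 := by
    rw [Nat.card_prod, card_7_3, card_13_2]
  have HG := adj_iff (X := Frob 7 2) (Y := Frob 13 3) 7 2 13 3 p7 p2 p13 p3 (by norm_num)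
    (by norm_num) (by norm_num) (by norm_num) card_7_2 card_13_3 (frob_pow 7 2 p7)
    (frob_pow 13 3 p13)
  have HM := adj_iff (X := Frob 7 3) (Y := Frob 13 2) 7 3 13 2 p7 p3 p13 p2 (by norm_num)
    (by norm_num) (by norm_num) (by norm_num) card_7_3 card_13_2 (frob_pow 7 3 p7)
    (frob_pow 13 2 p13)
  have dG := gkDegree_eq_two (X := Frob 7 2) (Y := Frob 13 3) 7 2 13 3 p7 p2 p13 p3 (by norm_num)
    (by norm_num) (by norm_num) (by norm_num) (by norm_num) (by norm_num) card_7_2 card_13_3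
    (frob_pow 7 2 p7) (frob_pow 13 3 p13)
  have dM := gkDegree_eq_two (X := Frob 7 3) (Y := Frob 13 2) 7 3 13 2 p7 p3 p13 p2 (by norm_num)
    (by norm_num) (by norm_num) (by norm_num) (by norm_num) (by norm_num) card_7_3 card_13_2
    (frob_pow 7 3 p7) (frob_pow 13 2 p13)
  refine ⟨Frob 7 2 × Frob 13 3, Frob 7 3 × Frob 13 2, inferInstance, inferInstance,
    inferInstance, inferInstance, by rw [cG, cM], ?_, ?_⟩
  · unfold degreePattern
    rw [cG, cM]
    apply List.map_congr_left
    intro p hp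
    have hp' : p ∈ (546 : ℕ).primeFactors := by simpa using hp
    have hpp := Nat.prime_of_mem_primeFactors hp'
    have hpd := Nat.dvd_of_mem_primeFactors hp'
    have h4 : p = 2 ∨ p = 3 ∨ p = 7 ∨ p = 13 := by
      have h546 : (546 : ℕ) = 2 * (3 * (7 * 13)) := by norm_num
      rw [h546] at hpd
      rcases (Nat.Prime.dvd_mul hpp).mp hpd with h | h
      · left; exact (Nat.prime_dvd_prime_iff_eq hpp p2).mp h
      · rcases (Nat.Prime.dvd_mul hpp).mp h with h | h
        · right; left; exact (Nat.prime_dvd_prime_iff_eq hpp p3).mp h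
        · rcases (Nat.Prime.dvd_mul hpp).mp h with h | h
          · right; right; left; exact (Nat.prime_dvd_prime_iff_eq hpp p7).mp h
          · right; right; right; exact (Nat.prime_dvd_prime_iff_eq hpp p13).mp h
    rw [dG p (by omega), dM p (by omega)]
  · intro h
    have h1 : (primeGraph (Frob 7 2 × Frob 13 3)).Adj 7 3 := (HG 7 3).mpr (by norm_num)
    have h2 : ¬ (primeGraph (Frob 7 3 × Frob 13 2)).Adj 7 3 := by
      rw [HM 7 3]; norm_num
    rw [h] at h1
    exact h2 h1

end Pool.Agent.Results.MP_21cc58_al.DegreePatternCounterexample
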